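import Pool.Agent.Helper70.KN.Goals4

/-!
# Project KN (MP_20ee5e_ag), packet NU5: the numerical condition for `N = 6`
-/

set_option autoImplicit false

namespace Pool.Agent.Helper12.KN.NU5

open Pool.Agent.Helper70.KN

/-- tangent lines of `t ^ k` at `t = 285/1000` -/
theorem poly (t : ℝ) (ht : 0 ≤ t) :
    0 ≤ t ^ 5 + t ^ 4 + t ^ 3 + t ^ 2 - 14 / 15 * t + 466 / 3000 := by
  have h2 : 0 ≤ (t - 285 / 1000) ^ 2 := sq_nonneg _
  have h3 : 0 ≤ (t - 285 / 1000) ^ 2 * (t + 2 * (285 / 1000)) := by positivity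
  have h4 : 0 ≤ (t - 285 / 1000) ^ 2 * (t ^ 2 + 2 * (285 / 1000) * t + 3 * (285 / 1000) ^ 2) := by
    positivity
  have h5 : 0 ≤ (t - 285 / 1000) ^ 2 * (t ^ 3 + 2 * (285 / 1000) * t ^ 2 +
      3 * (285 / 1000) ^ 2 * t + 4 * (285 / 1000) ^ 3) := by
    positivity
  nlinarith

theorem t (h : S_KP) : S_NU5 := by
  obtain ⟨h0, h1, h2⟩ := h 6 (by norm_num)
  refine ⟨1389 / 1000, 29 / 60, by norm_num, ?_, by norm_num, by norm_num⟩
  intro σ hσ
  rcases eq_or_lt_of_le hσ with h3 | h3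
  · rw [← h3, h0]
    norm_num
  · rcases le_total σ 2 with h4 | h4
    · rw [h1 σ h3 h4, le_div_iff₀ h3]
      have h5 := poly (1 - σ / 2) (by linarith)
      have h6 := mul_nonneg (show 0 ≤ σ by linarith) h5
      nlinarith
    · rw [h2 σ h4, le_div_iff₀ h3]
      nlinarith [sq_nonneg (σ - 1389 / 1000 * (30 / 29))]

end Pool.Agent.Helper12.KN.NU5
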